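import Pool.Agent.Helper3.Hert.Spec

set_option autoImplicit false

/-!
# HV-14: the order of the class of a monomial is at least its Newton order
-/

open scoped PowerSeries

namespace Pool.Agent.Helper3.Hert

open Spec

noncomputable section

namespace AsmOrder

variable {O : Type*} [CommRing O] [IsDomain O] [Algebra ℂ O] (E : EvRing O)

/-- the variable `t` as an element of `E.T` -/
def tau : E.T :=
  ⟨E.v 3, E.ev_ne 0 3 (by decide), E.ev_ne 1 3 (by decide), E.ev_ne 2 3 (by decide)⟩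

theorem D3_mem {g : O} (hg : g ∈ E.T) : E.D 3 g ∈ E.T := by
  obtain ⟨h0, h1, h2⟩ := hg
  refine ⟨?_, ?_, ?_⟩
  · rw [← E.D_ev 3 0 (by decide), h0]
  · rw [← E.D_ev 3 1 (by decide), h1]
  · rw [← E.D_ev 3 2 (by decide), h2]

/-- the restriction of `∂/∂t` to the functions of `t` -/
def dT : Derivation ℂ E.T E.T where
  toFun g := ⟨E.D 3 g, D3_mem E g.2⟩
  map_add' g g' := by ext1; simp
  map_smul' c g := by ext1; simp
  map_one_eq_zero' := by ext1; simp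
  leibniz' g g' := by ext1; simp

theorem coe_dT (g : E.T) : ((dT E g : E.T) : O) = E.D 3 g := rfl

theorem dT_tau : dT E (tau E) = 1 := by
  ext1
  exact E.D_self 3

theorem split (φ : E.T) : ∃ (c : ℂ) (ψ : E.T), φ = algebraMap ℂ E.T c + tau E * ψ := by
  obtain ⟨c, hc⟩ := E.const (φ : O)
  obtain ⟨ψ, hψ⟩ := E.dvd_sub 3 (φ : O)
  obtain ⟨h0, h1, h2⟩ := φ.2
  have k2 : E.ev 2 (E.ev 3 (φ : O)) = E.ev 3 (φ : O) := by rw [E.ev_comm, h2]
  have k1 : E.ev 1 (E.ev 3 (φ : O)) = E.ev 3 (φ : O) := by rw [E.ev_comm, h1]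
  have k0 : E.ev 0 (E.ev 3 (φ : O)) = E.ev 3 (φ : O) := by rw [E.ev_comm, h0]
  rw [k2, k1, k0] at hc
  have key : ∀ j : Fin 4, j ≠ 3 → E.ev j (φ : O) = φ → E.ev j (E.ev 3 (φ : O)) = E.ev 3 (φ : O) →
      E.ev j ψ = ψ := by
    intro j hj hj1 hj2
    have h := congrArg (E.ev j) hψ
    rw [map_sub, map_mul, hj1, hj2, E.ev_ne j 3 hj, hψ] at h
    exact (mul_left_cancel₀ (E.v_ne 3) h).symm
  refine ⟨c, ⟨ψ, key 0 (by decide) h0 k0, key 1 (by decide) h1 k1, key 2 (by decide) h2 k2⟩, ?_⟩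
  ext1
  show (φ : O) = algebraMap ℂ O c + E.v 3 * ψ
  rw [← hc, ← hψ]
  ring

theorem unit3 : ∃ w : E.T, (3 - 13 * tau E) * w = 1 := by
  obtain ⟨w, hw, h0, h1, h2⟩ := E.isUnit3
  refine ⟨⟨w, h0, h1, h2⟩, ?_⟩
  ext1
  exact hw

/-- class of `x^i y^j z^k φ` as a linear map on the functions of `t` -/
def clT (i j k : ℕ) : E.T →ₗ[ℂ] GM E.D E.F :=
  (cls E.D E.F) ∘ₗ (LinearMap.mulLeft ℂ (E.v 0 ^ i * E.v 1 ^ j * E.v 2 ^ k)) ∘ₗ
    (E.T.val.toLinearMap)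

theorem clT_apply (i j k : ℕ) (φ : E.T) : clT E i j k φ = cl E i j k (φ : O) := rfl

theorem cls_mon (a b c d : ℕ) :
    cls E.D E.F (E.mon (a, b, c, d)) = clT E (a - 1) (b - 1) (c - 1) (tau E ^ (d - 1)) := rfl

theorem relT (i j k : ℕ) (ψ : E.T) :
    (PowerSeries.X : ℂ⟦X⟧) • clT E i j k (dT E ψ)
      = (6 : ℂ) • clT E i j (k + 5) (tau E ^ 5 * ψ) + (13 : ℂ) • clT E i j k (tau E ^ 12 * ψ) :=
  rel_t E i j k (ψ : O)

theorem relZ (i j k : ℕ) (ψ : E.T) :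
    (((k : ℂ) + 1) - (2 * ((j : ℂ) + 1) - ((i : ℂ) + 1)) / 6) •
      (PowerSeries.X : ℂ⟦X⟧) • clT E i j k ψ
      = (10 : ℂ) • clT E i j (k + 10) ψ + (5 : ℂ) • clT E i j (k + 5) (tau E ^ 6 * ψ) :=
  rel_z E i j k (ψ : O) ψ.2

theorem relZ0 (ψ : E.T) :
    (10 : ℂ) • clT E 1 0 9 ψ + (5 : ℂ) • clT E 1 0 4 (tau E ^ 6 * ψ) = 0 :=
  rel_z0 E (ψ : O) ψ.2

/-- the filtration -/
abbrev PP : ℚ → Submodule ℂ⟦X⟧ (GM E.D E.F) :=
  Pfil (fun p : B4 => cls E.D E.F (E.mon p)) (fun p : B4 => nh p)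

theorem PP_anti (α β : ℚ) (h : α ≤ β) : PP E β ≤ PP E α :=
  pfil_anti (fun p : B4 => cls E.D E.F (E.mon p)) (fun p : B4 => nh p) h

theorem PP_up (α : ℚ) (g : GM E.D E.F) (h : g ∈ PP E α) :
    (PowerSeries.X : ℂ⟦X⟧) • g ∈ PP E (α + 1) :=
  (pfil_shift (fun p : B4 => cls E.D E.F (E.mon p)) (fun p : B4 => nh p) α g).2 h

theorem PP_big (α : ℚ) : ∃ K : ℕ, ∀ g ∈ brieskorn E.D E.F,
    (PowerSeries.X ^ K : ℂ⟦X⟧) • g ∈ PP E α := by
  have h := pfil_big (fun p : B4 => cls E.D E.F (E.mon p)) (fun p : B4 => nh p) α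
  rwa [(asm_basis E).2] at h

theorem PP_mem (a b c d : ℕ) (h : (a, b, c, d) ∈ B4) :
    cls E.D E.F (E.mon (a, b, c, d)) ∈ PP E (nh (a, b, c, d)) :=
  pfil_mem (fun p : B4 => cls E.D E.F (E.mon p)) (fun p : B4 => nh p) ⟨(a, b, c, d), h⟩

theorem nh_eq (a b c d : ℕ) : nh (a, b, c, d) =
    ((a : ℚ) / 2 + (2 * b - a) / 6) + hh ((c : ℚ) - (2 * b - a) / 6) d := by
  unfold nh H780 hh
  rw [← min_add_add_left, Nat.cast_min, ← min_div_div_right (by norm_num : (0 : ℚ) ≤ 780)]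
  congr 1
  · push_cast; ring
  · push_cast; ring

theorem smul_mem_C {W : Submodule ℂ⟦X⟧ (GM E.D E.F)} (c : ℂ) {g : GM E.D E.F} (h : g ∈ W) :
    c • g ∈ W := by
  rw [← algebraMap_smul ℂ⟦X⟧ c g]
  exact W.smul_mem _ h

theorem mem_of_smul_C {W : Submodule ℂ⟦X⟧ (GM E.D E.F)} {c : ℂ} (hc : c ≠ 0) {g : GM E.D E.F}
    (h : c • g ∈ W) : g ∈ W := by
  have := smul_mem_C E c⁻¹ h
  rwa [smul_smul, inv_mul_cancel₀ hc, one_smul] at this

/-! ### Membership in `B4` -/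

theorem memX {a b c d : ℕ} (h : (a = 1 ∧ 1 ≤ b ∧ b ≤ 3 ∧ 1 ≤ c ∧ c ≤ 5) ∨
    (a = 2 ∧ b = 1 ∧ 1 ≤ c ∧ c ≤ 4)) (hd : 1 ≤ d) (hd' : d ≤ 18) (h' : d ≤ 13 + fl a b c) :
    (a, b, c, d) ∈ B4 := by
  refine Finset.mem_union_left _ (Finset.mem_union_left _ (Finset.mem_union_left _
    (Finset.mem_union_left _ (Finset.mem_union_left _ (Finset.mem_filter.2 ⟨?_, h'⟩)))))
  rcases h with ⟨rfl, h1, h2, h3, h4⟩ | ⟨rfl, rfl, h3, h4⟩
  · refine Finset.mem_union_left _ (Finset.mem_product.2 ⟨Finset.mem_singleton.2 rfl,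
      Finset.mem_product.2 ⟨Finset.mem_Icc.2 ⟨h1, h2⟩, Finset.mem_product.2
        ⟨Finset.mem_Icc.2 ⟨h3, h4⟩, Finset.mem_Icc.2 ⟨hd, hd'⟩⟩⟩⟩)
  · refine Finset.mem_union_right _ (Finset.mem_product.2 ⟨Finset.mem_singleton.2 rfl,
      Finset.mem_product.2 ⟨Finset.mem_singleton.2 rfl, Finset.mem_product.2
        ⟨Finset.mem_Icc.2 ⟨h3, h4⟩, Finset.mem_Icc.2 ⟨hd, hd'⟩⟩⟩⟩)

theorem memY {a b c d : ℕ} (h : (a = 1 ∧ 1 ≤ b ∧ b ≤ 3 ∧ 6 ≤ c ∧ c ≤ 10) ∨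
    (a = 2 ∧ b = 1 ∧ 6 ≤ c ∧ c ≤ 9)) (hd : 1 ≤ d) (hd' : d ≤ 5) :
    (a, b, c, d) ∈ B4 := by
  rcases h with ⟨rfl, h1, h2, h3, h4⟩ | ⟨rfl, rfl, h3, h4⟩
  · exact Finset.mem_union_left _ (Finset.mem_union_left _ (Finset.mem_union_left _
      (Finset.mem_union_left _ (Finset.mem_union_right _ (Finset.mem_product.2
      ⟨Finset.mem_singleton.2 rfl,
      Finset.mem_product.2 ⟨Finset.mem_Icc.2 ⟨h1, h2⟩, Finset.mem_product.2
        ⟨Finset.mem_Icc.2 ⟨h3, h4⟩, Finset.mem_Icc.2 ⟨hd, hd'⟩⟩⟩⟩)))))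
  · exact Finset.mem_union_left _ (Finset.mem_union_left _ (Finset.mem_union_left _
      (Finset.mem_union_right _ (Finset.mem_product.2 ⟨Finset.mem_singleton.2 rfl,
      Finset.mem_product.2 ⟨Finset.mem_singleton.2 rfl, Finset.mem_product.2
        ⟨Finset.mem_Icc.2 ⟨h3, h4⟩, Finset.mem_Icc.2 ⟨hd, hd'⟩⟩⟩⟩))))

theorem memZ {a b c d : ℕ} (h : (a = 1 ∧ 1 ≤ b ∧ b ≤ 3 ∧ 11 ≤ c ∧ c ≤ 15) ∨
    (a = 2 ∧ b = 1 ∧ 11 ≤ c ∧ c ≤ 14)) (hd : 1 ≤ d) (hd' : d ≤ 5) (h' : fl a b (c - 10) < d) :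
    (a, b, c, d) ∈ B4 := by
  refine Finset.mem_union_left _ (Finset.mem_union_left _ (Finset.mem_union_right _
    (Finset.mem_filter.2 ⟨?_, h'⟩)))
  rcases h with ⟨rfl, h1, h2, h3, h4⟩ | ⟨rfl, rfl, h3, h4⟩
  · refine Finset.mem_union_left _ (Finset.mem_product.2 ⟨Finset.mem_singleton.2 rfl,
      Finset.mem_product.2 ⟨Finset.mem_Icc.2 ⟨h1, h2⟩, Finset.mem_product.2
        ⟨Finset.mem_Icc.2 ⟨h3, h4⟩, Finset.mem_Icc.2 ⟨hd, hd'⟩⟩⟩⟩)
  · refine Finset.mem_union_right _ (Finset.mem_product.2 ⟨Finset.mem_singleton.2 rfl,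
      Finset.mem_product.2 ⟨Finset.mem_singleton.2 rfl, Finset.mem_product.2
        ⟨Finset.mem_Icc.2 ⟨h3, h4⟩, Finset.mem_Icc.2 ⟨hd, hd'⟩⟩⟩⟩)

theorem memS5 {d : ℕ} (hd : 1 ≤ d) (hd' : d ≤ 6) : (2, 1, 5, d) ∈ B4 :=
  Finset.mem_union_left _ (Finset.mem_union_right _ (Finset.mem_product.2
    ⟨Finset.mem_singleton.2 rfl, Finset.mem_product.2 ⟨Finset.mem_singleton.2 rfl,
      Finset.mem_product.2 ⟨Finset.mem_singleton.2 rfl, Finset.mem_Icc.2 ⟨hd, hd'⟩⟩⟩⟩))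

theorem memS10 {d : ℕ} (hd : 1 ≤ d) (hd' : d ≤ 5) : (2, 1, 10, d) ∈ B4 :=
  Finset.mem_union_right _ (Finset.mem_product.2
    ⟨Finset.mem_singleton.2 rfl, Finset.mem_product.2 ⟨Finset.mem_singleton.2 rfl,
      Finset.mem_product.2 ⟨Finset.mem_singleton.2 rfl, Finset.mem_Icc.2 ⟨hd, hd'⟩⟩⟩⟩)

/-- the standard sectors -/
theorem std (a b r : ℕ) (hr : 1 ≤ r)
    (hcase : (a = 1 ∧ 1 ≤ b ∧ b ≤ 3 ∧ r ≤ 5) ∨ (a = 2 ∧ b = 1 ∧ r ≤ 4)) (d : ℕ) (hd : 1 ≤ d) :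
    cls E.D E.F (E.mon (a, b, r, d)) ∈ PP E (nh (a, b, r, d)) ∧
    cls E.D E.F (E.mon (a, b, r + 5, d)) ∈ PP E (nh (a, b, r + 5, d)) ∧
    cls E.D E.F (E.mon (a, b, r + 10, d)) ∈ PP E (nh (a, b, r + 10, d)) := by
  have hmain := red_std (G := GM E.D E.F) (tau E) (dT E) (dT_tau E) (split E) (unit3 E)
    (clT E (a - 1) (b - 1) (r - 1)) (clT E (a - 1) (b - 1) (r - 1 + 5))
    (clT E (a - 1) (b - 1) (r - 1 + 10)) ((r : ℚ) - (2 * b - a) / 6) ?_ (fl a b r) ?_ ?_ ?_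
    (relT E _ _ _) (relT E _ _ _) ?_ ((a : ℚ) / 2 + (2 * b - a) / 6) (PP E) (brieskorn E.D E.F)
    (fun ψ => cls_mem _ _ _) (fun ψ => cls_mem _ _ _) (fun ψ => cls_mem _ _ _)
    (PP_anti E) (PP_up E) (PP_big E) ?_ ?_ ?_
  · obtain ⟨hX, hY, hZ⟩ := hmain
    have hX' := hX (d - 1) 1
    have hY' := hY (d - 1) 1
    have hZ' := hZ (d - 1) 1
    rw [mul_one] at hX' hY' hZ'
    have hd' : ((d - 1 : ℕ) + 1 : ℕ) = d := by omega
    rw [hd'] at hX' hY' hZ'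
    refine ⟨?_, ?_, ?_⟩
    · rw [nh_eq, cls_mon]
      exact hX'
    · rw [nh_eq, cls_mon]
      have e1 : r + 5 - 1 = r - 1 + 5 := by omega
      have e2 : ((r + 5 : ℕ) : ℚ) - (2 * b - a) / 6 = (r : ℚ) - (2 * b - a) / 6 + 5 := by
        push_cast; ring
      rw [e1, e2]
      exact hY'
    · rw [nh_eq, cls_mon]
      have e1 : r + 10 - 1 = r - 1 + 10 := by omega
      have e2 : ((r + 10 : ℕ) : ℚ) - (2 * b - a) / 6 = (r : ℚ) - (2 * b - a) / 6 + 10 := by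
        push_cast; ring
      rw [e1, e2]
      exact hZ'
  · have h : 2 * b < 6 * r + a := by omega
    have h' : (2 * b : ℚ) < 6 * r + a := by exact_mod_cast h
    linarith
  · have h : 5 * fl a b r + 2 * b ≤ 6 * r + a := by unfold fl; omega
    have h' : (5 * fl a b r + 2 * b : ℚ) ≤ 6 * r + a := by exact_mod_cast h
    linarith
  · have h : 6 * r + a < 5 * fl a b r + 5 + 2 * b := by unfold fl; omega
    have h' : (6 * r + a : ℚ) < 5 * fl a b r + 5 + 2 * b := by exact_mod_cast h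
    linarith
  · unfold fl; omega
  · intro ψ
    have h := relZ E (a - 1) (b - 1) (r - 1) ψ
    rw [← h]
    congr 1
    have ha : ((a - 1 : ℕ) : ℂ) + 1 = a := by
      have : a - 1 + 1 = a := by omega
      exact_mod_cast this
    have hb : ((b - 1 : ℕ) : ℂ) + 1 = b := by
      have : b - 1 + 1 = b := by omega
      exact_mod_cast this
    have hr' : ((r - 1 : ℕ) : ℂ) + 1 = r := by
      have : r - 1 + 1 = r := by omega
      exact_mod_cast this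
    rw [ha, hb, hr']
    push_cast
    rfl
  · intro j hj
    have hfl : fl a b r ≤ 5 := by unfold fl; omega
    have h := PP_mem E a b r (j + 1) (memX (by omega) (by omega) (by omega) (by omega))
    rw [nh_eq, cls_mon, Nat.add_sub_cancel] at h
    exact h
  · intro j hj
    have h := PP_mem E a b (r + 5) (j + 1) (memY (by omega) (by omega) (by omega))
    have e1 : r + 5 - 1 = r - 1 + 5 := by omega
    have e2 : ((r + 5 : ℕ) : ℚ) - (2 * b - a) / 6 = (r : ℚ) - (2 * b - a) / 6 + 5 := by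
      push_cast; ring
    rw [nh_eq, cls_mon, Nat.add_sub_cancel, e1, e2] at h
    exact h
  · intro j hj1 hj2
    have h := PP_mem E a b (r + 10) (j + 1) (memZ (by omega) (by omega) (by omega) (by
      rw [Nat.add_sub_cancel]; omega))
    have e1 : r + 10 - 1 = r - 1 + 10 := by omega
    have e2 : ((r + 10 : ℕ) : ℚ) - (2 * b - a) / 6 = (r : ℚ) - (2 * b - a) / 6 + 10 := by
      push_cast; ring
    rw [nh_eq, cls_mon, Nat.add_sub_cancel, e1, e2] at h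
    exact h

/-- the special sector -/
theorem special :
    (∀ (j : ℕ) (ψ : E.T), clT E 1 0 4 (tau E ^ j * ψ) ∈ PP E (1 + hh 5 (j + 1))) ∧
    (∀ (j : ℕ) (ψ : E.T), clT E 1 0 9 (tau E ^ j * ψ) ∈ PP E (1 + hh 10 (j + 1))) := by
  refine red_special (G := GM E.D E.F) (tau E) (dT E) (dT_tau E) (split E) (unit3 E)
    (clT E 1 0 4) (clT E 1 0 9) (relT E _ _ _) (relZ0 E) 1 (PP E) (brieskorn E.D E.F)
    (fun ψ => cls_mem _ _ _) (fun ψ => cls_mem _ _ _)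
    (PP_anti E) (PP_up E) (PP_big E) ?_ ?_
  · intro j hj
    have h := PP_mem E 2 1 5 (j + 1) (memS5 (by omega) (by omega))
    rw [nh_eq, cls_mon, Nat.add_sub_cancel] at h
    norm_num at h
    exact h
  · intro j hj
    have h := PP_mem E 2 1 10 (j + 1) (memS10 (by omega) (by omega))
    rw [nh_eq, cls_mon, Nat.add_sub_cancel] at h
    norm_num at h
    exact h

theorem hh_shift (s : ℚ) (d : ℕ) (j : ℕ) : hh s (d + j) = min (s / 10 + d / 12 + j / 12)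
    (7 * s / 65 + d / 13 + j / 13) := by
  unfold hh
  congr 1
  · push_cast; ring
  · push_cast; ring

/-- the last column of the special sector -/
theorem last (d : ℕ) (hd : 1 ≤ d) :
    clT E 1 0 14 (tau E ^ (d - 1)) ∈ PP E (1 + hh 15 d) := by
  obtain ⟨hY, hZ⟩ := special E
  rcases Nat.lt_or_ge d 6 with h6 | h6
  · -- `d ≤ 5`
    have h := relZ E 1 0 4 (tau E ^ (d - 1))
    have e : (10 : ℂ) • clT E 1 0 14 (tau E ^ (d - 1)) =
        (((4 : ℕ) : ℂ) + 1 - (2 * (((0 : ℕ) : ℂ) + 1) - (((1 : ℕ) : ℂ) + 1)) / 6) •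
          (PowerSeries.X : ℂ⟦X⟧) • clT E 1 0 4 (tau E ^ (d - 1)) -
        (5 : ℂ) • clT E 1 0 9 (tau E ^ 6 * tau E ^ (d - 1)) := by
      rw [h]; abel
    refine mem_of_smul_C E (c := 10) (by norm_num) ?_
    rw [e]
    refine Submodule.sub_mem _ (smul_mem_C E _ ?_) (smul_mem_C E _ ?_)
    · have h1 := hY (d - 1) 1
      rw [mul_one] at h1
      have h2 := PP_up E _ _ h1
      refine PP_anti E _ _ ?_ h2
      have hd' : d - 1 + 1 = d := by omega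
      rw [hd']
      have hdq : (d : ℚ) ≤ 5 := by exact_mod_cast (by omega : d ≤ 5)
      unfold hh
      have h3 : min (15 / 10 + (d : ℚ) / 12) (7 * 15 / 65 + (d : ℚ) / 13) ≤
          15 / 10 + (d : ℚ) / 12 := min_le_left _ _
      have h4 : (5 : ℚ) / 10 + (d : ℚ) / 12 ≤ min (5 / 10 + (d : ℚ) / 12) (7 * 5 / 65 + (d : ℚ) / 13) := by
        apply le_min le_rfl
        linarith
      linarith
    · have h1 := hZ 6 (tau E ^ (d - 1))
      have e1 : tau E ^ 6 * tau E ^ (d - 1) = tau E ^ (6 + (d - 1)) * 1 := by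
        rw [mul_one, pow_add]
      have h2 := hZ (6 + (d - 1)) 1
      rw [← e1] at h2
      refine PP_anti E _ _ ?_ h2
      have hd' : 6 + (d - 1) + 1 = d + 6 := by omega
      rw [hd', hh_shift]
      have hdq : (d : ℚ) ≤ 5 := by exact_mod_cast (by omega : d ≤ 5)
      unfold hh
      have h3 : min (15 / 10 + (d : ℚ) / 12) (7 * 15 / 65 + (d : ℚ) / 13) ≤
          15 / 10 + (d : ℚ) / 12 := min_le_left _ _
      have h4 : (15 : ℚ) / 10 + (d : ℚ) / 12 ≤ min (10 / 10 + (d : ℚ) / 12 + ((6 : ℕ) : ℚ) / 12)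
          (7 * 10 / 65 + (d : ℚ) / 13 + ((6 : ℕ) : ℚ) / 13) := by
        apply le_min
        · push_cast; linarith
        · push_cast; linarith
      linarith
  · -- `d ≥ 6`
    have h := relT E 1 0 9 (tau E ^ (d - 6))
    have e : (6 : ℂ) • clT E 1 0 14 (tau E ^ (d - 1)) =
        (PowerSeries.X : ℂ⟦X⟧) • clT E 1 0 9 (dT E (tau E ^ (d - 6))) -
        (13 : ℂ) • clT E 1 0 9 (tau E ^ 12 * tau E ^ (d - 6)) := by
      have e1 : tau E ^ (d - 1) = tau E ^ 5 * tau E ^ (d - 6) := by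
        rw [← pow_add]; congr 1; omega
      rw [h, e1]; abel
    refine mem_of_smul_C E (c := 6) (by norm_num) ?_
    rw [e]
    refine Submodule.sub_mem _ ?_ (smul_mem_C E _ ?_)
    · rcases Nat.eq_or_lt_of_le h6 with h7 | h7
      · have e0 : d - 6 = 0 := by omega
        rw [e0, pow_zero, Derivation.map_one_eq_zero, map_zero, smul_zero]
        exact Submodule.zero_mem _
      · have e2 : dT E (tau E ^ (d - 6)) = ((d - 6 : ℕ) : ℂ) • tau E ^ (d - 7) := by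
          rw [Derivation.leibniz_pow, dT_tau, smul_eq_mul, mul_one, nsmul_eq_mul,
            Algebra.smul_def, map_natCast]
          congr 2
        rw [e2, map_smul, smul_comm]
        refine smul_mem_C E _ ?_
        have h1 := hZ (d - 7) 1
        rw [mul_one] at h1
        have h2 := PP_up E _ _ h1
        refine PP_anti E _ _ ?_ h2
        obtain ⟨m, rfl⟩ : ∃ m, d = m + 6 := ⟨d - 6, by omega⟩
        have hd' : m + 6 - 7 + 1 = m := by omega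
        rw [hd', hh_shift]
        unfold hh
        rw [add_assoc 1, ← min_add_add_right]
        refine add_le_add le_rfl (min_le_min ?_ ?_)
        · push_cast; linarith
        · push_cast; linarith
    · have e1 : tau E ^ 12 * tau E ^ (d - 6) = tau E ^ (12 + (d - 6)) * 1 := by
        rw [mul_one, pow_add]
      have h2 := hZ (12 + (d - 6)) 1
      rw [← e1] at h2
      refine PP_anti E _ _ ?_ h2
      have hd' : 12 + (d - 6) + 1 = d + 7 := by omega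
      rw [hd', hh_shift]
      unfold hh
      refine add_le_add le_rfl (min_le_min ?_ ?_)
      · push_cast; linarith
      · push_cast; linarith

end AsmOrder

open AsmOrder in
/-- ASM2: the order of the class of a monomial is at least its Newton order
(types `(1,1), (1,2), (1,3), (2,1)` for the exponents of `x, y`). -/
theorem asm_order {O : Type*} [CommRing O] [IsDomain O] [Algebra ℂ O] (E : EvRing O)
    (a b c d : ℕ) (hab : (a = 1 ∧ 1 ≤ b ∧ b ≤ 3) ∨ (a = 2 ∧ b = 1)) (hc : 0 < c)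
    (hc' : c ≤ 15) (hd : 0 < d) :
    cls E.D E.F (E.mon (a, b, c, d)) ∈
      Pfil (fun p : B4 => cls E.D E.F (E.mon p)) (fun p : B4 => nh p) (nh (a, b, c, d)) := by
  by_cases hs : a = 2 ∧ (c = 5 ∨ c = 10 ∨ c = 15)
  · obtain ⟨rfl, hs⟩ := hs
    have hb : b = 1 := by omega
    subst hb
    have e0 : ((2 : ℕ) : ℚ) / 2 + (2 * ((1 : ℕ) : ℚ) - ((2 : ℕ) : ℚ)) / 6 = 1 := by norm_num
    have hd' : d - 1 + 1 = d := by omega
    rcases hs with rfl | rfl | rfl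
    · have h := (special E).1 (d - 1) 1
      rw [mul_one, hd'] at h
      rw [nh_eq, cls_mon, e0]
      have e1 : ((5 : ℕ) : ℚ) - (2 * ((1 : ℕ) : ℚ) - ((2 : ℕ) : ℚ)) / 6 = 5 := by norm_num
      rw [e1]
      exact h
    · have h := (special E).2 (d - 1) 1
      rw [mul_one, hd'] at h
      rw [nh_eq, cls_mon, e0]
      have e1 : ((10 : ℕ) : ℚ) - (2 * ((1 : ℕ) : ℚ) - ((2 : ℕ) : ℚ)) / 6 = 10 := by norm_num
      rw [e1]
      exact h
    · have h := last E d hd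
      rw [nh_eq, cls_mon, e0]
      have e1 : ((15 : ℕ) : ℚ) - (2 * ((1 : ℕ) : ℚ) - ((2 : ℕ) : ℚ)) / 6 = 15 := by norm_num
      rw [e1]
      exact h
  · rcases Nat.lt_or_ge 5 c with h5 | h5
    · rcases Nat.lt_or_ge 10 c with h10 | h10
      · obtain ⟨r, rfl⟩ : ∃ r, c = r + 10 := ⟨c - 10, by omega⟩
        exact (std E a b r (by omega) (by omega) d hd).2.2
      · obtain ⟨r, rfl⟩ : ∃ r, c = r + 5 := ⟨c - 5, by omega⟩
        exact (std E a b r (by omega) (by omega) d hd).2.1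
    · exact (std E a b c (by omega) (by omega) d hd).1

end

end Pool.Agent.Helper3.Hert
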